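import Pool.Agent.Lib.MP_954e53_ag.RS.Main
import Pool.Agent.Lib.MP_954e53_ag.RS.GorMain
import Pool.Agent.Lib.MP_954e53_ag.RS.SecMain
import Pool.Agent.Lib.MP_954e53_ag.All.Data

namespace Pool.Agent.Results.MP_954e53_ag.EveryIndex

open Pool.Agent.Lib.MP_954e53_ag

universe u

/-- Over every algebraically closed field of characteristic zero, for every negative a-invariant
`-r` and every large dimension `d` congruent to `4 r` modulo seven, there is a Gorenstein section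
ring with rational singularities without forms of degree one, whose ideals `I_N` have core
different from the graded core for all large `N`. -/
theorem result (k : Type u) [Field k] [IsAlgClosed k] [CharZero k] (r : ℕ) (hr : 1 ≤ r) :
    ∃ d₀ : ℕ, ∀ d : ℕ, d₀ ≤ d → d ≡ 4 * r [MOD 7] →
    ∃ (S : Type u) (_ : CommRing S) (_ : IsDomain S) (_ : Algebra k S)
    (𝒜 : ℕ → Submodule k S) (_ : GradedAlgebra 𝒜),
    RS.IsSectionRingOfAmple 𝒜 ∧ RS.IsGorenstein S ∧ RS.RationalSingularities k S ∧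
      GorensteinOfIndex 𝒜 d r ∧ (∀ y ∈ 𝒜 0, ∃ a : k, algebraMap k S a = y) ∧ (∀ y ∈ 𝒜 1, y = 0) ∧
      ∃ N₀, ∀ N, N₀ ≤ N → core (truncIdeal 𝒜 N) ≠ gradedCore 𝒜 (truncIdeal 𝒜 N) := by
  obtain ⟨d₀, hd₀⟩ := All.exists_data k r hr
  refine ⟨d₀, fun d h1 h2 => ?_⟩
  obtain ⟨c, G, _, _, ρ, F, hG, hd, hdr, h, hF⟩ := hd₀ d h1 h2
  obtain ⟨_, _, r', h1, h2, -, h4, -, -, -, h8, h9⟩ := Gen.inv_properties k hd h hF
  obtain ⟨n, hgen⟩ := h1.1
  refine ⟨Gen.invRing ρ F, inferInstance, inferInstance, inferInstance, Gen.invGr ρ F,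
    inferInstance, RS.isSectionRingOfAmple_of h1 ?_, RS.isGorenstein_of hgen h4,
    RS.inv_rational hG hd h hF, Gen.inv_gorenstein_index h hF hF.toOctics.params hdr, h2, h8, h9⟩
  obtain ⟨θ, e, s, hθ, hreg, -⟩ := h4
  obtain ⟨d, rfl⟩ := Nat.exists_eq_succ_of_ne_zero (show d ≠ 0 by omega)
  refine ⟨e 0, (hθ 0).1, θ 0, (hθ 0).2, fun h0 => ?_⟩
  rw [List.ofFn_succ, RingTheory.Sequence.isRegular_cons_iff, h0] at hreg
  exact one_ne_zero (hreg.1 (a₁ := 1) (a₂ := 0) (by simp))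

end Pool.Agent.Results.MP_954e53_ag.EveryIndex
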