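import Pool.Agent.Lib.MP_954e53_ag.Large

namespace Pool.Agent.Results.MP_954e53_ag.LargeDim

open Pool.Agent.Lib.MP_954e53_ag

/-- Core equals graded core when the embedding codimension `c` satisfies `2 c + 2 ≤ dim S`. -/
theorem result (k S : Type*) [Field k] [CharZero k] [CommRing S] [IsDomain S] [Algebra k S]
    (𝒜 : ℕ → Submodule k S) [GradedAlgebra 𝒜] (d c r : ℕ) (hgen : GeneratedBy 𝒜 (d + c))
    (hfree : EventuallyFree 𝒜) (hG : GorensteinOfIndex 𝒜 d r) (hr : 1 ≤ r)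
    (hd : 2 * c + 2 ≤ d) :
    ∃ N₀ : ℕ, ∀ N : ℕ, N₀ ≤ N → core (truncIdeal 𝒜 N) = gradedCore 𝒜 (truncIdeal 𝒜 N) :=
  core_eq_of_numerics hgen hfree hG le_rfl (not_data_large hr hd)

end Pool.Agent.Results.MP_954e53_ag.LargeDim
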