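import Pool.Agent.Lib.MP_954e53_ag.Small19

namespace Pool.Agent.Results.MP_954e53_ag.SmallCodim

open Pool.Agent.Lib.MP_954e53_ag

/-- Core equals graded core in embedding codimension at most nineteen, in every dimension. -/
theorem result (k S : Type*) [Field k] [CharZero k] [CommRing S] [IsDomain S] [Algebra k S]
    (𝒜 : ℕ → Submodule k S) [GradedAlgebra 𝒜] (n d r : ℕ) (hgen : GeneratedBy 𝒜 n)
    (hfree : EventuallyFree 𝒜) (hG : GorensteinOfIndex 𝒜 d r) (hr : 1 ≤ r)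
    (hn : n ≤ d + 19) :
    ∃ N₀ : ℕ, ∀ N : ℕ, N₀ ≤ N → core (truncIdeal 𝒜 N) = gradedCore 𝒜 (truncIdeal 𝒜 N) :=
  core_eq_of_numerics hgen hfree hG hn (not_data_19 hr)

end Pool.Agent.Results.MP_954e53_ag.SmallCodim
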